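import Pool.Agent.U722.FF.Stm2
import Pool.Agent.U460.FFP.EXT
import Pool.Agent.U637.FFP.SMALL

/-!
# Project FS, package CYC1: the trivial group and the infinite cyclic group
-/

set_option autoImplicit false

namespace Pool.Agent.U423.FSP

open U722.FF TH57.FF MulAction

theorem TFn_triv (G : Type) [Group G] [Subsingleton G] : TFn G 0 := by
  let f : MonoidAlgebra ℤ G →ₗ[MonoidAlgebra ℤ G] PM G PUnit.{1} :=
    LinearMap.toSpanSingleton _ _ (pt G PUnit.unit.{1})
  have hf : ∀ z : ℤ, f (z • (1 : MonoidAlgebra ℤ G)) =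
      (Finsupp.single PUnit.unit.{1} z : PUnit.{1} →₀ ℤ) := by
    intro z
    change (z • (1 : MonoidAlgebra ℤ G)) • pt G PUnit.unit.{1} = _
    rw [smul_assoc, one_smul, Pool.Agent.U637.FFP.zsmul_pt]
  refine FR_equiv 0 (LinearEquiv.ofBijective f ⟨?_, ?_⟩)
    ⟨Module.Finite.self _, Module.Free.self _⟩
  · rw [injective_iff_map_eq_zero]
    intro r hr
    obtain ⟨z, rfl⟩ := Pool.Agent.U637.FFP.exists_int G r
    rw [hf z] at hr
    have h1 : (Finsupp.single PUnit.unit.{1} z : PUnit.{1} →₀ ℤ) = 0 := hr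
    rw [Finsupp.single_eq_zero] at h1
    rw [h1, zero_smul]
  · intro m
    refine ⟨((show PUnit.{1} →₀ ℤ from m) PUnit.unit) • (1 : MonoidAlgebra ℤ G), ?_⟩
    rw [hf]
    exact Finsupp.ext fun x => by simp

/-- the generator minus one -/
noncomputable def Dm : MonoidAlgebra ℤ (Multiplicative ℤ) :=
  MonoidAlgebra.of ℤ (Multiplicative ℤ) (Multiplicative.ofAdd 1) - 1

theorem Dm_ne : Dm ≠ 0 := by
  intro h
  have h1 : MonoidAlgebra.of ℤ (Multiplicative ℤ) (Multiplicative.ofAdd 1) =
      MonoidAlgebra.of ℤ (Multiplicative ℤ) 1 :=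
    (sub_eq_zero.1 h).trans (map_one (MonoidAlgebra.of ℤ (Multiplicative ℤ))).symm
  have h2 := MonoidAlgebra.of_injective h1
  exact absurd (congrArg Multiplicative.toAdd h2) (by simp)

theorem exists_int (r : MonoidAlgebra ℤ (Multiplicative ℤ)) :
    ∃ (z : ℤ) (q : MonoidAlgebra ℤ (Multiplicative ℤ)),
      r = z • (1 : MonoidAlgebra ℤ (Multiplicative ℤ)) + q * Dm := by
  induction r using MonoidAlgebra.induction_on with
  | of g =>
    have h1 : (Ideal.Quotient.mk (Ideal.span {Dm})).toMonoidHom.comp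
        (MonoidAlgebra.of ℤ (Multiplicative ℤ)) = 1 := by
      apply MonoidHom.ext_mint
      change Ideal.Quotient.mk (Ideal.span {Dm})
        (MonoidAlgebra.of ℤ (Multiplicative ℤ) (Multiplicative.ofAdd 1)) = 1
      rw [← map_one (Ideal.Quotient.mk (Ideal.span {Dm})), Ideal.Quotient.eq]
      exact Ideal.mem_span_singleton_self _
    have h2 : Ideal.Quotient.mk (Ideal.span {Dm}) (MonoidAlgebra.of ℤ (Multiplicative ℤ) g) =
        Ideal.Quotient.mk (Ideal.span {Dm}) 1 := by
      rw [map_one]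
      exact DFunLike.congr_fun h1 g
    rw [Ideal.Quotient.eq, Ideal.mem_span_singleton'] at h2
    obtain ⟨q, hq⟩ := h2
    exact ⟨1, q, by rw [hq, one_smul]; abel⟩
  | add x y hx hy =>
    obtain ⟨a, p, rfl⟩ := hx
    obtain ⟨b, q, rfl⟩ := hy
    exact ⟨a + b, p + q, by rw [add_smul, add_mul]; abel⟩
  | smul z x hx =>
    obtain ⟨a, p, rfl⟩ := hx
    exact ⟨z * a, z • p, by rw [smul_add, mul_smul, smul_mul_assoc]⟩

theorem TFn_Z : TFn (Multiplicative ℤ) 1 := by
  set R := MonoidAlgebra ℤ (Multiplicative ℤ) with hR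
  let f : (Unit → R) →ₗ[R] PM (Multiplicative ℤ) PUnit.{1} :=
    (LinearMap.toSpanSingleton R _ (pt (Multiplicative ℤ) PUnit.unit.{1})).comp
      (LinearMap.proj ())
  have hf0 : ∀ y : Unit → R, f y = y () • pt (Multiplicative ℤ) PUnit.unit.{1} := fun _ => rfl
  have hz : ∀ z : ℤ, (z • (1 : R)) • pt (Multiplicative ℤ) PUnit.unit.{1} =
      (Finsupp.single PUnit.unit.{1} z : PUnit.{1} →₀ ℤ) := by
    intro z
    rw [smul_assoc, one_smul, Pool.Agent.U637.FFP.zsmul_pt]
  have hD : (Dm : R) • pt (Multiplicative ℤ) PUnit.unit.{1} = 0 := by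
    unfold Dm
    rw [sub_smul, one_smul, Pool.Agent.U637.FFP.of_smul_unit, sub_self]
  refine ⟨Unit, inferInstance, f, ?_, ?_⟩
  · intro m
    refine ⟨fun _ => ((show PUnit.{1} →₀ ℤ from m) PUnit.unit) • (1 : R), ?_⟩
    rw [hf0, hz]
    exact Finsupp.ext fun x => by simp
  · let L : R →ₗ[R] LinearMap.ker f :=
      { toFun := fun r => ⟨fun _ => r * Dm, by
          rw [LinearMap.mem_ker, hf0, mul_smul, hD, smul_zero]⟩
        map_add' := fun a b => by
          ext i : 2
          exact add_mul a b Dm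
        map_smul' := fun a b => by
          ext i : 2
          exact mul_assoc a b Dm }
    have hL : ∀ r, ((L r : LinearMap.ker f) : Unit → R) () = r * Dm := fun _ => rfl
    have hbij : Function.Bijective L := by
      constructor
      · rw [injective_iff_map_eq_zero]
        intro r hr
        have h1 : r * Dm = 0 := by
          rw [← hL, hr]
          rfl
        exact (mul_eq_zero.1 h1).resolve_right Dm_ne
      · rintro ⟨y, hy⟩
        obtain ⟨z, q, hq⟩ := exists_int (y ())
        rw [LinearMap.mem_ker, hf0, hq, add_smul, mul_smul, hD, smul_zero, add_zero, hz] at hy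
        have h1 : (Finsupp.single PUnit.unit.{1} z : PUnit.{1} →₀ ℤ) = 0 := hy
        rw [Finsupp.single_eq_zero] at h1
        rw [h1, zero_smul, zero_add] at hq
        refine ⟨q, ?_⟩
        ext i : 2
        change q * Dm = y i
        rw [← hq]
    exact FR_equiv 0 (LinearEquiv.ofBijective L hbij) ⟨Module.Finite.self _, Module.Free.self _⟩

theorem TFn_iso {k : ℕ} (G H : Type) [Group G] [Group H] (e : G ≃* H) (h : TFn G k) : TFn H k := by
  let a : PM G PUnit.{1} ≃+ PM H PUnit.{1} := AddEquiv.refl (PUnit.{1} →₀ ℤ)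
  refine Pool.Agent.U637.FFP.FR_ringEquiv k (MonoidAlgebra.mapDomainRingEquiv ℤ e) a ?_ h
  intro r m
  induction r using MonoidAlgebra.induction_on with
  | of g =>
    have h1 : MonoidAlgebra.mapDomainRingEquiv ℤ e (MonoidAlgebra.of ℤ G g) =
        MonoidAlgebra.of ℤ H (e g) := by
      simp [MonoidAlgebra.of]
    rw [h1, Pool.Agent.U637.FFP.of_smul_unit, Pool.Agent.U637.FFP.of_smul_unit]
  | add x y hx hy => rw [add_smul, map_add, map_add, add_smul, hx, hy]
  | smul z x hx =>
    rw [smul_assoc, map_zsmul, hx, map_zsmul (MonoidAlgebra.mapDomainRingEquiv ℤ e), smul_assoc]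

theorem t_CYC1 : S_CYC1 := by
  rintro G _ (h | ⟨⟨e⟩⟩)
  · exact Pool.Agent.U460.FFP.FR_mono _ _ (TFn_triv G)
  · exact TFn_iso _ _ e.symm TFn_Z

end Pool.Agent.U423.FSP
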